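import Pool.Agent.Helper18.FM.GoalsB
import Pool.Agent.Helper57.HX.Wcc
import Pool.Agent.Helper82.HB.SBET

/-! # FM FCO: commutation and Bianchi identity on `Sx` -/

open Complex Metric Set Filter Topology MeasureTheory
open scoped ContDiff ComplexConjugate ComplexOrder Manifold Matrix

namespace Pool.Agent.Helper93.FM.FCO

open Pool.Agent.Helper95.Lin Pool.Agent.Helper16.Abund Pool.Agent.Helper92.Orb
  Pool.Agent.Helper10.SP Pool.Agent.Helper95.RK Pool.Agent.Helper57.HS
  Pool.Agent.Helper15.HS Pool.Agent.Helper15.GS Pool.Agent.Helper57.RBC Pool.Agent.Helper82.HB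
  Pool.Agent.Helper18.FM
open Pool.Agent.Helper10.RBC (dn)
open Pool.Agent.Helper29.HB (WL)
open Pool.Agent.Helper27.TRB (tw)
open Pool.Agent.Helper25.HS (TT)
open Pool.Agent.Helper45.HS (SmM cd_congr' posDef_det cdM_mul cdbM_mul cdM_congr cdbM_congr
  cdM_conjTranspose cdbM_conjTranspose cd_sum'' cd_mul'')

universe u

variable {n m : ℕ} {T : Set (Cn n)} {σ : Cn n → Matrix (Fin n) (Fin m) ℂ}
  {h P : Cn n → Matrix (Fin m) (Fin m) ℂ} {x : Cn n}

theorem cdM_P' (hT : IsOpen T) (hs : SmM h T) (hp : ∀ x ∈ T, (h x).PosDef)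
    (hPh : ∀ i j, DifferentiableOn ℂ (fun x => P x i j) T)
    (hh : ∀ x ∈ T, P x * h x = h x * (P x)ᴴ) (hx : x ∈ T)
    (l : Fin n) : cdM l P x = GamE h l x * P x - P x * GamE h l x := by
  have hPs : SmM P T := SmR.of_holo hT hPh
  have hPh' : SmM (fun y => P y * h y) T := SmR.mul (X := P) (Y := h) hPs hs
  have h1 : cdbM l (fun y => P y * h y) x = P x * (h x * (GamE h l x)ᴴ) := by
    rw [cdbM_mul hT hx hPs hs l, cdbM_E hT hs hp hx l]
    have h0 : cdbM l P x = 0 := cdbR_holo hT hx hPh l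
    rw [h0, Matrix.zero_mul, zero_add]
  have hherm : ∀ y ∈ T, P y * h y = (P y * h y)ᴴ := by
    intro y hy
    rw [Matrix.conjTranspose_mul, (hp y hy).isHermitian.eq, hh y hy]
  have h2 : cdM l (fun y => P y * h y) x = GamE h l x * (P x * h x) := by
    have e1 : cdM l (fun y => P y * h y) x = cdM l (fun y => (P y * h y)ᴴ) x :=
      cdM_congr hT hx (fun y hy => hherm y hy) l
    rw [e1, cdM_conjTranspose hT hx hPh' l, h1, Matrix.conjTranspose_mul,
      Matrix.conjTranspose_mul, Matrix.conjTranspose_conjTranspose,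
      (hp x hx).isHermitian.eq, Matrix.mul_assoc, ← hh x hx]
  have h3 : cdM l (fun y => P y * h y) x = cdM l P x * h x + P x * (GamE h l x * h x) := by
    rw [cdM_mul hT hx hPs hs l, gamE_mul (hp x hx) l]
  have hu : IsUnit (h x).det := isUnit_iff_ne_zero.2 (posDef_det (hp x hx))
  have h4 : cdM l P x * h x = (GamE h l x * P x - P x * GamE h l x) * h x := by
    rw [Matrix.sub_mul, Matrix.mul_assoc, Matrix.mul_assoc, ← h2, h3]
    abel
  calc cdM l P x = cdM l P x * h x * (h x)⁻¹ := by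
        rw [Matrix.mul_nonsing_inv_cancel_right _ _ hu]
    _ = _ := by rw [h4, Matrix.mul_nonsing_inv_cancel_right _ _ hu]

theorem comm (hT : IsOpen T) (hs : SmM h T) (hp : ∀ x ∈ T, (h x).PosDef)
    (hPh : ∀ i j, DifferentiableOn ℂ (fun x => P x i j) T)
    (hh : ∀ x ∈ T, P x * h x = h x * (P x)ᴴ) (hx : x ∈ T) (k l : Fin n) :
    P x * RE h k l x = RE h k l x * P x := by
  have hPs : SmR P T := SmR.of_holo hT hPh
  have hG : SmR (GamE h k) T := gamE_smooth hT hs hp k
  have h1 : cdbM l (cdM k P) x = 0 := cdbR_cdR_holo hT hx hPh k l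
  have h2 : cdbM l (cdM k P) x = cdbM l (fun y => GamE h k y * P y - P y * GamE h k y) x :=
    cdbM_congr hT hx (fun y hy => cdM_P' hT hs hp hPh hh hy k) l
  have h3 : cdbR l (fun y => GamE h k y * P y - P y * GamE h k y) x =
      cdbR l (fun y => GamE h k y * P y) x - cdbR l (fun y => P y * GamE h k y) x :=
    cdbR_sub hT hx (hG.mul hPs) (hPs.mul hG) l
  rw [cdbR_mul hT hx hG hPs, cdbR_mul hT hx hPs hG, cdbR_holo hT hx hPh l] at h3
  have h4 : cdbR l (GamE h k) x = RE h k l x := rfl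
  have h5 : cdbM l (fun y => GamE h k y * P y - P y * GamE h k y) x =
    cdbR l (fun y => GamE h k y * P y - P y * GamE h k y) x := rfl
  rw [h4, Matrix.mul_zero, Matrix.zero_mul, add_zero, zero_add] at h3
  rw [h2, h5, h3, sub_eq_zero] at h1
  exact h1.symm

/-- The curvature as a sesquilinear matrix valued form. -/
noncomputable def Dm (C : Fin m → Fin m → Cn n → Matrix (Fin m) (Fin m) ℂ) (x : Cn n)
    (u w : Fin m → ℂ) : Matrix (Fin m) (Fin m) ℂ := ∑ a, ∑ b, (u a * conj (w b)) • C a b x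

variable {C : Fin m → Fin m → Cn n → Matrix (Fin m) (Fin m) ℂ}

theorem Dm_apply (u w : Fin m → ℂ) (i j : Fin m) :
    Dm C x u w i j = ∑ a, ∑ b, u a * conj (w b) * C a b x i j := by
  unfold Dm
  rw [Matrix.sum_apply]
  refine Finset.sum_congr rfl fun a _ => ?_
  rw [Matrix.sum_apply]
  rfl

theorem Dm_add_left (u u' w : Fin m → ℂ) : Dm C x (u + u') w = Dm C x u w + Dm C x u' w := by
  ext i j
  rw [Matrix.add_apply, Dm_apply, Dm_apply, Dm_apply, ← Finset.sum_add_distrib]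
  refine Finset.sum_congr rfl fun a _ => ?_
  rw [← Finset.sum_add_distrib]
  refine Finset.sum_congr rfl fun b _ => ?_
  rw [Pi.add_apply]
  ring

theorem Dm_smul_left (c : ℂ) (u w : Fin m → ℂ) : Dm C x (c • u) w = c • Dm C x u w := by
  ext i j
  rw [Matrix.smul_apply, Dm_apply, Dm_apply, smul_eq_mul, Finset.mul_sum]
  refine Finset.sum_congr rfl fun a _ => ?_
  rw [Finset.mul_sum]
  refine Finset.sum_congr rfl fun b _ => ?_
  rw [Pi.smul_apply, smul_eq_mul]
  ring

theorem Dm_add_right (u w w' : Fin m → ℂ) : Dm C x u (w + w') = Dm C x u w + Dm C x u w' := by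
  ext i j
  rw [Matrix.add_apply, Dm_apply, Dm_apply, Dm_apply, ← Finset.sum_add_distrib]
  refine Finset.sum_congr rfl fun a _ => ?_
  rw [← Finset.sum_add_distrib]
  refine Finset.sum_congr rfl fun b _ => ?_
  rw [Pi.add_apply, map_add]
  ring

theorem Dm_smul_right (c : ℂ) (u w : Fin m → ℂ) :
    Dm C x u (c • w) = conj c • Dm C x u w := by
  ext i j
  rw [Matrix.smul_apply, Dm_apply, Dm_apply, smul_eq_mul, Finset.mul_sum]
  refine Finset.sum_congr rfl fun a _ => ?_
  rw [Finset.mul_sum]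
  refine Finset.sum_congr rfl fun b _ => ?_
  rw [Pi.smul_apply, smul_eq_mul, map_mul]
  ring

theorem Dm_zero_left (w : Fin m → ℂ) : Dm C x 0 w = 0 := by
  have h := Dm_smul_left (C := C) (x := x) 0 0 w
  rwa [zero_smul, zero_smul] at h

theorem Dm_zero_right (u : Fin m → ℂ) : Dm C x u 0 = 0 := by
  have h := Dm_smul_right (C := C) (x := x) 0 u 0
  rwa [zero_smul, map_zero, zero_smul] at h

theorem Dm_sum_left (c : Fin m → ℂ) (M : Fin m → Fin m → ℂ) (w : Fin m → ℂ) :
    Dm C x (∑ f, c f • M f) w = ∑ f, c f • Dm C x (M f) w := by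
  classical
  have h : ∀ s : Finset (Fin m), Dm C x (∑ f ∈ s, c f • M f) w =
      ∑ f ∈ s, c f • Dm C x (M f) w := by
    intro s
    induction s using Finset.induction_on with
    | empty => rw [Finset.sum_empty, Finset.sum_empty, Dm_zero_left]
    | insert a s ha ih => rw [Finset.sum_insert ha, Finset.sum_insert ha, Dm_add_left,
        Dm_smul_left, ih]
  exact h Finset.univ

theorem TT_eq (a b u w : Fin m → ℂ) :
    TT (RC h C x) a b u w = - ((a ᵥ* (Dm C x u w * h x)) ⬝ᵥ star b) := by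
  have hD : ∀ i j, (Dm C x u w * h x) i j =
      ∑ k, ∑ l, (u k * conj (w l)) * (C k l x * h x) i j := by
    intro i j
    unfold Dm
    rw [Finset.sum_mul, Matrix.sum_apply]
    refine Finset.sum_congr rfl fun k _ => ?_
    rw [Finset.sum_mul, Matrix.sum_apply]
    refine Finset.sum_congr rfl fun l _ => ?_
    rw [Matrix.smul_mul, Matrix.smul_apply, smul_eq_mul]
  unfold TT RC
  simp only [dotProduct, Matrix.vecMul, Finset.sum_mul, Finset.mul_sum,
    ← Finset.sum_neg_distrib, hD]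
  rw [Finset.sum_comm]
  refine Finset.sum_congr rfl fun j _ => Finset.sum_congr rfl fun i _ =>
    Finset.sum_congr rfl fun k _ => Finset.sum_congr rfl fun l _ => ?_
  rw [Pi.star_apply, Complex.star_def]
  ring

theorem row_mul (A B : Matrix (Fin m) (Fin m) ℂ) (i : Fin m) : (A * B) i = A i ᵥ* B := rfl

theorem Dm_cont {α : Type*} [TopologicalSpace α] {S : Set α}
    (hC : ∀ a b p q, ContinuousOn (fun x => C a b x p q) T) {X₀ : α → Cn n}
    {U W : α → Fin m → ℂ} (hX : ContinuousOn X₀ S) (hm : MapsTo X₀ S T)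
    (hU : ContinuousOn U S) (hW : ContinuousOn W S) (i j : Fin m) :
    ContinuousOn (fun s => Dm C (X₀ s) (U s) (W s) i j) S := by
  simp only [Dm_apply]
  refine continuousOn_finsetSum _ fun a _ => continuousOn_finsetSum _ fun b _ => ?_
  refine ContinuousOn.mul (ContinuousOn.mul ?_ ?_) ?_
  · exact continuousOn_pi.1 hU a
  · exact Complex.continuous_conj.comp_continuousOn (continuousOn_pi.1 hW b)
  · exact (hC a b i j).comp hX hm

theorem closure {w : ℕ → Cn n → ℝ} {Z : ℕ → Cn n → Matrix (Fin m) (Fin m) ℂ}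
    {X p1 : Cn n → Matrix (Fin m) (Fin m) ℂ} (hL : WL T w Z X)
    (hZ : ∀ j, ∀ x ∈ T, ∀ e, Z j x e ∈ Submodule.span ℂ (Set.range fun i => σ x i))
    (hPX : ∀ x, P x = p1 x * X x) (B : Cn n → (Fin m → ℂ) → ℂ)
    (hBc : ContinuousOn (fun q : Cn n × (Fin m → ℂ) => B q.1 q.2) (T ×ˢ univ))
    (hK : ∀ x ∈ T, ∃ K : Submodule ℂ (Fin m → ℂ), ∀ u, u ∈ K ↔ B x u = 0)
    (hσ : ∀ x ∈ T, ∀ k, B x (σ x k) = 0) : ∀ x ∈ T, ∀ u ∈ Sx σ P x, B x u = 0 := by
  have key : ∀ e : Fin m, ∀ x ∈ T, B x (X x e) = 0 := by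
    intro e x hx
    have h1 := Pool.Agent.Helper57.HX.wcc T w Z X hL (fun x Y => ‖B x (Y e)‖) ?_
      (fun _ _ => 0) (fun j => continuousOn_const) ?_ ?_ x hx
    · exact norm_le_zero_iff.1 h1
    · refine ContinuousOn.norm ?_
      refine hBc.comp (f := fun q : Cn n × Matrix (Fin m) (Fin m) ℂ => (q.1, q.2 e)) ?_ ?_
      · exact (continuous_fst.prodMk ((continuous_apply e).comp continuous_snd)).continuousOn
      · intro q hq
        exact ⟨hq.1, mem_univ _⟩
    · intro j y hy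
      obtain ⟨K, hK'⟩ := hK y hy
      have h2 : Submodule.span ℂ (Set.range fun i => σ y i) ≤ K := by
        rw [Submodule.span_le]
        rintro _ ⟨i, rfl⟩
        exact (hK' _).2 (hσ y hy i)
      have h3 : B y (Z j y e) = 0 := (hK' _).1 (h2 (hZ j y hy e))
      show ‖B y (Z j y e)‖ ≤ 0
      rw [h3, norm_zero]
    · intro D _ _
      simp only [mul_zero, integral_zero]
      exact tendsto_const_nhds
  intro x hx u hu
  obtain ⟨K, hK'⟩ := hK x hx
  have h2 : Sx σ P x ≤ K := by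
    unfold Sx
    rw [Submodule.span_le]
    rintro v (⟨i, rfl⟩ | ⟨i, rfl⟩)
    · exact (hK' _).2 (hσ x hx i)
    · have h3 : P x i = ∑ e, p1 x i e • X x e := by
        rw [hPX x]
        funext j
        rw [Matrix.mul_apply, Finset.sum_apply]
        rfl
      show P x i ∈ K
      rw [h3]
      exact K.sum_mem fun e _ => K.smul_mem _ ((hK' _).2 (key e x hx))
  exact (hK' u).1 (h2 hu)

theorem mkK (B : (Fin m → ℂ) → ℂ) (ha : ∀ u v, B (u + v) = B u + B v)
    (hs : ∀ (c : ℂ) u, ∃ d : ℂ, B (c • u) = d * B u) :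
    ∃ K : Submodule ℂ (Fin m → ℂ), ∀ u, u ∈ K ↔ B u = 0 := by
  refine ⟨⟨⟨⟨{u | B u = 0}, ?_⟩, ?_⟩, ?_⟩, fun u => Iff.rfl⟩
  · intro u v hu hv
    show B (u + v) = 0
    rw [ha, show B u = 0 from hu, show B v = 0 from hv, add_zero]
  · show B 0 = 0
    have h := ha 0 0
    rw [add_zero] at h
    exact left_eq_add.1 h
  · intro c u hu
    show B (c • u) = 0
    obtain ⟨d, hd⟩ := hs c u
    rw [hd, show B u = 0 from hu, mul_zero]

theorem full {w : ℕ → Cn n → ℝ} {Z : ℕ → Cn n → Matrix (Fin m) (Fin m) ℂ}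
    {X p1 : Cn n → Matrix (Fin m) (Fin m) ℂ} (hL : WL T w Z X)
    (hZ : ∀ j, ∀ x ∈ T, ∀ e, Z j x e ∈ Submodule.span ℂ (Set.range fun i => σ x i))
    (hPX : ∀ x, P x = p1 x * X x) (hσc : ContinuousOn σ T) (hPc : ContinuousOn P T)
    (E : Cn n → (Fin m → ℂ) → (Fin m → ℂ) → ℂ)
    (hc : ∀ U W : Cn n × (Fin m → ℂ) → Fin m → ℂ, ContinuousOn U (T ×ˢ univ) →
      ContinuousOn W (T ×ˢ univ) → ContinuousOn (fun q => E q.1 (U q) (W q)) (T ×ˢ univ))
    (hl : ∀ x ∈ T, ∀ w, ∃ K : Submodule ℂ (Fin m → ℂ), ∀ u, u ∈ K ↔ E x u w = 0)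
    (hr : ∀ x ∈ T, ∀ u, ∃ K : Submodule ℂ (Fin m → ℂ), ∀ w, w ∈ K ↔ E x u w = 0)
    (h0 : ∀ x ∈ T, ∀ k l, E x (σ x k) (σ x l) = 0) :
    ∀ x ∈ T, ∀ u ∈ Sx σ P x, ∀ w ∈ Sx σ P x, E x u w = 0 := by
  have hf : ContinuousOn (fun q : Cn n × (Fin m → ℂ) => q.1) (T ×ˢ univ) :=
    continuous_fst.continuousOn
  have hfm : MapsTo (fun q : Cn n × (Fin m → ℂ) => q.1) (T ×ˢ univ) T := fun q hq => hq.1
  have hσr : ∀ k, ContinuousOn (fun q : Cn n × (Fin m → ℂ) => σ q.1 k) (T ×ˢ univ) := fun k =>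
    ((continuous_apply k).comp_continuousOn hσc).comp hf hfm
  have hPr : ∀ k, ContinuousOn (fun q : Cn n × (Fin m → ℂ) => P q.1 k) (T ×ˢ univ) := fun k =>
    ((continuous_apply k).comp_continuousOn hPc).comp hf hfm
  have hs2 : ContinuousOn (fun q : Cn n × (Fin m → ℂ) => q.2) (T ×ˢ univ) :=
    continuous_snd.continuousOn
  have hA : ∀ l, ∀ x ∈ T, ∀ u ∈ Sx σ P x, E x u (σ x l) = 0 := fun l =>
    closure hL hZ hPX (fun x u => E x u (σ x l)) (hc _ _ hs2 (hσr l))
      (fun x hx => hl x hx _) (fun x hx k => h0 x hx k l)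
  have hB1 : ∀ k, ∀ x ∈ T, ∀ w ∈ Sx σ P x, E x (σ x k) w = 0 := fun k =>
    closure hL hZ hPX (fun x w => E x (σ x k) w) (hc _ _ (hσr k) hs2)
      (fun x hx => hr x hx _) (fun x hx l => h0 x hx k l)
  have hB2 : ∀ k, ∀ x ∈ T, ∀ w ∈ Sx σ P x, E x (P x k) w = 0 := fun k =>
    closure hL hZ hPX (fun x w => E x (P x k) w) (hc _ _ (hPr k) hs2)
      (fun x hx => hr x hx _)
      (fun x hx l => hA l x hx _ (Submodule.subset_span (Or.inr ⟨k, rfl⟩)))
  intro x hx u hu w hw
  obtain ⟨K, hK⟩ := hl x hx w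
  have h2 : Sx σ P x ≤ K := by
    unfold Sx
    rw [Submodule.span_le]
    rintro v (⟨i, rfl⟩ | ⟨i, rfl⟩)
    · exact (hK _).2 (hB1 i x hx w hw)
    · exact (hK _).2 (hB2 i x hx w hw)
  exact (hK u).1 (h2 hu)

theorem XS_row (ε : ℝ) (Q : Cn n → Matrix (Fin n) (Fin n) ℂ) (e : Fin m) :
    XS ε σ h Q x e ∈ Submodule.span ℂ (Set.range fun i => σ x i) := by
  have h1 : XS ε σ h Q x e = ∑ i, ((ε : ℂ) • (h x * (σ x)ᴴ * (Q x)⁻¹)) e i • σ x i := by
    funext j
    show ((ε : ℂ) • (h x * (σ x)ᴴ * (Q x)⁻¹ * σ x)) e j = _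
    rw [← Matrix.smul_mul, Matrix.mul_apply, Finset.sum_apply]
    rfl
  rw [h1]
  exact Submodule.sum_mem _ fun i _ => Submodule.smul_mem _ _ (Submodule.subset_span ⟨i, rfl⟩)

theorem cdb_dsum (hT : IsOpen T) (hx : x ∈ T) {F G : Fin m → Fin m → Cn n → ℂ}
    (hF : ∀ a b, DifferentiableOn ℂ (F a b) T) (hG : ∀ a b, ContDiffOn ℝ ∞ (G a b) T)
    (l : Fin n) : cdb l (fun y => ∑ a, ∑ b, F a b y * G a b y) x =
      ∑ a, ∑ b, F a b x * cdb l (G a b) x := by
  have hFs : ∀ a b, ContDiffOn ℝ ∞ (F a b) T := fun a b => holo_contDiffOn_real hT (hF a b)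
  rw [(cd_sum'' hT hx Finset.univ (f := fun a y => ∑ b, F a b y * G a b y)
    (fun a _ => ContDiffOn.sum fun b _ => (hFs a b).mul (hG a b)) l).2]
  refine Finset.sum_congr rfl fun a _ => ?_
  rw [(cd_sum'' hT hx Finset.univ (f := fun b y => F a b y * G a b y)
    (fun b _ => (hFs a b).mul (hG a b)) l).2]
  refine Finset.sum_congr rfl fun b _ => ?_
  rw [(cd_mul'' hT hx (hFs a b) (hG a b) l).2,
    Pool.Agent.Helper99.RK.holo_cdb hT (hF a b) l hx, zero_mul, zero_add]

theorem t : Pool.Agent.Helper18.FM.S_FCO.{u} := by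
  intro n m T G _ R H σ h χ c ψ hD Γ C hCF κ X s S N φ H' ε Q hLim htor P p hp0 hPX hPh hPP hPh'
  have hT : IsOpen T := hLim.wl.op
  have hS := hD.sf
  have hs : SmM h T := hS.smooth
  have hpd := hS.posDef
  set p1 : Cn n → Matrix (Fin m) (Fin m) ℂ := fun x => Polynomial.aeval (X x) p.divX with hp1d
  have hp1 : ∀ x, P x = p1 x * X x := by
    intro y
    rw [hPX y]
    conv_lhs => rw [← Polynomial.divX_mul_X_add p]
    rw [map_add, map_mul, Polynomial.aeval_X, Polynomial.aeval_C,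
      Polynomial.coeff_zero_eq_eval_zero, hp0, map_zero, add_zero]
  have hZ : ∀ j, ∀ x ∈ T, ∀ e, XS (ε j) σ h (Q j) x e ∈
      Submodule.span ℂ (Set.range fun i => σ x i) := fun j x _ e => XS_row (ε j) (Q j) e
  have hD0 : ∀ x ∈ T, ∀ k l, Dm C x (σ x k) (σ x l) = RE h k l x :=
    fun x hx k l => (hCF.cur x hx k l).symm
  have hb1 : ∀ x ∈ T, ∀ k l, P x * Dm C x (σ x k) (σ x l) = Dm C x (σ x k) (σ x l) * P x := by
    intro x hx k l
    rw [hD0 x hx k l]
    exact comm hT hs hpd hPh hPh' hx k l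
  have hb2 : ∀ x ∈ T, ∀ k l f,
      P x f ᵥ* Dm C x (σ x k) (σ x l) = σ x k ᵥ* Dm C x (P x f) (σ x l) := by
    intro x hx k l f
    funext q
    have htP : ∀ y ∈ T, ∑ a, ∑ b, (σ y k a * P y f b) * Γ a y b q =
        ∑ a, ∑ b, (σ y k a * P y f b) * Γ b y a q := by
      intro y hy
      rw [← sub_eq_zero, ← Finset.sum_sub_distrib]
      have h1 : ∀ a, (∑ b, (σ y k a * P y f b) * Γ a y b q) -
          (∑ b, (σ y k a * P y f b) * Γ b y a q) =
          ∑ e, p1 y f e * ∑ b, σ y k a * X y e b * (Γ a y b q - Γ b y a q) := by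
        intro a
        rw [← Finset.sum_sub_distrib]
        simp only [Finset.mul_sum]
        rw [Finset.sum_comm]
        refine Finset.sum_congr rfl fun b _ => ?_
        rw [← mul_sub, hp1 y, Matrix.mul_apply, Finset.mul_sum, Finset.sum_mul]
        refine Finset.sum_congr rfl fun e _ => ?_
        ring
      simp only [h1]
      rw [Finset.sum_comm]
      refine Finset.sum_eq_zero fun e _ => ?_
      rw [← Finset.mul_sum, htor y hy k e q, mul_zero]
    have h1 := (cd_congr' hT hx htP l).2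
    have hF : ∀ a b, DifferentiableOn ℂ (fun y => σ y k a * P y f b) T := fun a b =>
      (hS.holo k a).mul (hPh f b)
    rw [cdb_dsum (F := fun a b y => σ y k a * P y f b) (G := fun a b y => Γ a y b q) hT hx hF
      (fun a b => hCF.smG a b q) l,
      cdb_dsum (F := fun a b y => σ y k a * P y f b) (G := fun a b y => Γ b y a q) hT hx hF
      (fun a b => hCF.smG b a q) l] at h1
    have hdb : ∀ a b, cdb l (fun y => Γ a y b q) x = ∑ d, conj (σ x l d) * C a d x b q := by
      intro a b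
      have h2 := congrFun (congrFun (hCF.dbG x hx a l) b) q
      rw [Matrix.sum_apply] at h2
      exact h2
    have e1 : (P x f ᵥ* Dm C x (σ x k) (σ x l)) q =
        ∑ a, ∑ b, (σ x k a * P x f b) * cdb l (fun y => Γ a y b q) x := by
      show ∑ b, P x f b * Dm C x (σ x k) (σ x l) b q = _
      rw [Finset.sum_comm]
      refine Finset.sum_congr rfl fun b _ => ?_
      rw [Dm_apply, Finset.mul_sum]
      refine Finset.sum_congr rfl fun a _ => ?_
      rw [hdb, Finset.mul_sum, Finset.mul_sum]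
      refine Finset.sum_congr rfl fun d _ => ?_
      ring
    have e2 : (σ x k ᵥ* Dm C x (P x f) (σ x l)) q =
        ∑ a, ∑ b, (σ x k a * P x f b) * cdb l (fun y => Γ b y a q) x := by
      show ∑ a, σ x k a * Dm C x (P x f) (σ x l) a q = _
      refine Finset.sum_congr rfl fun a _ => ?_
      rw [Dm_apply, Finset.mul_sum]
      refine Finset.sum_congr rfl fun b _ => ?_
      rw [hdb, Finset.mul_sum, Finset.mul_sum]
      refine Finset.sum_congr rfl fun d _ => ?_
      ring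
    rw [e1, e2]
    exact h1
  have hσc : ContinuousOn σ T := continuousOn_pi.2 fun i => continuousOn_pi.2 fun a =>
    (hS.holo i a).continuousOn
  have hPc : ContinuousOn P T := continuousOn_pi.2 fun i => continuousOn_pi.2 fun a =>
    (hPh i a).continuousOn
  have hf : ContinuousOn (fun q : Cn n × (Fin m → ℂ) => q.1) (T ×ˢ univ) :=
    continuous_fst.continuousOn
  have hfm : MapsTo (fun q : Cn n × (Fin m → ℂ) => q.1) (T ×ˢ univ) T := fun q hq => hq.1
  have hPe : ∀ i j, ContinuousOn (fun q : Cn n × (Fin m → ℂ) => P q.1 i j) (T ×ˢ univ) :=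
    fun i j => (hPh i j).continuousOn.comp hf hfm
  have hPr : ∀ k, ContinuousOn (fun q : Cn n × (Fin m → ℂ) => P q.1 k) (T ×ˢ univ) := fun k =>
    ((continuous_apply k).comp_continuousOn hPc).comp hf hfm
  have H1 : ∀ i j, ∀ x ∈ T, ∀ u ∈ Sx σ P x, ∀ w ∈ Sx σ P x,
      (P x * Dm C x u w) i j - (Dm C x u w * P x) i j = 0 := by
    intro i j
    refine full hLim.wl hZ hp1 hσc hPc
      (fun x u w => (P x * Dm C x u w) i j - (Dm C x u w * P x) i j) ?_ ?_ ?_ ?_
    · intro U W hU hW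
      simp only [Matrix.mul_apply]
      refine ContinuousOn.sub ?_ ?_
      · exact continuousOn_finsetSum _ fun s _ =>
          (hPe i s).mul (Dm_cont hCF.cC hf hfm hU hW s j)
      · exact continuousOn_finsetSum _ fun s _ =>
          (Dm_cont hCF.cC hf hfm hU hW i s).mul (hPe s j)
    · intro x _ w
      refine mkK _ (fun u v => ?_) (fun c u => ⟨c, ?_⟩)
      · rw [Dm_add_left, Matrix.mul_add, Matrix.add_mul, Matrix.add_apply, Matrix.add_apply]
        ring
      · rw [Dm_smul_left, Matrix.mul_smul, Matrix.smul_mul, Matrix.smul_apply,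
          Matrix.smul_apply, smul_eq_mul, smul_eq_mul]
        ring
    · intro x _ u
      refine mkK _ (fun w v => ?_) (fun c w => ⟨conj c, ?_⟩)
      · rw [Dm_add_right, Matrix.mul_add, Matrix.add_mul, Matrix.add_apply, Matrix.add_apply]
        ring
      · rw [Dm_smul_right, Matrix.mul_smul, Matrix.smul_mul, Matrix.smul_apply,
          Matrix.smul_apply, smul_eq_mul, smul_eq_mul]
        ring
    · intro x hx k l
      show (P x * Dm C x (σ x k) (σ x l)) i j - (Dm C x (σ x k) (σ x l) * P x) i j = 0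
      rw [hb1 x hx k l, sub_self]
  have H2 : ∀ f q, ∀ x ∈ T, ∀ u ∈ Sx σ P x, ∀ w ∈ Sx σ P x,
      (P x f ᵥ* Dm C x u w) q - (u ᵥ* Dm C x (P x f) w) q = 0 := by
    intro f q
    refine full hLim.wl hZ hp1 hσc hPc
      (fun x u w => (P x f ᵥ* Dm C x u w) q - (u ᵥ* Dm C x (P x f) w) q) ?_ ?_ ?_ ?_
    · intro U W hU hW
      simp only [Matrix.vecMul, dotProduct]
      refine ContinuousOn.sub ?_ ?_
      · exact continuousOn_finsetSum _ fun s _ =>
          (hPe f s).mul (Dm_cont hCF.cC hf hfm hU hW s q)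
      · exact continuousOn_finsetSum _ fun s _ =>
          (continuousOn_pi.1 hU s).mul (Dm_cont hCF.cC hf hfm (hPr f) hW s q)
    · intro x _ w
      refine mkK _ (fun u v => ?_) (fun c u => ⟨c, ?_⟩)
      · rw [Dm_add_left, Matrix.vecMul_add, Matrix.add_vecMul, Pi.add_apply, Pi.add_apply]
        ring
      · rw [Dm_smul_left, Matrix.vecMul_smul, Matrix.smul_vecMul, Pi.smul_apply,
          Pi.smul_apply, smul_eq_mul, smul_eq_mul]
        ring
    · intro x _ u
      refine mkK _ (fun w v => ?_) (fun c w => ⟨conj c, ?_⟩)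
      · rw [Dm_add_right, Dm_add_right, Matrix.vecMul_add, Matrix.vecMul_add, Pi.add_apply,
          Pi.add_apply]
        ring
      · rw [Dm_smul_right, Dm_smul_right, Matrix.vecMul_smul, Matrix.vecMul_smul,
          Pi.smul_apply, Pi.smul_apply, smul_eq_mul, smul_eq_mul]
        ring
    · intro x hx k l
      show (P x f ᵥ* Dm C x (σ x k) (σ x l)) q - (σ x k ᵥ* Dm C x (P x f) (σ x l)) q = 0
      rw [hb2 x hx k l f, sub_self]
  intro x hx u hu w hw a b
  have h1 : P x * Dm C x u w = Dm C x u w * P x := by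
    ext i j
    exact sub_eq_zero.1 (H1 i j x hx u hu w hw)
  have h2 : ∀ f, P x f ᵥ* Dm C x u w = u ᵥ* Dm C x (P x f) w := fun f => by
    funext q
    exact sub_eq_zero.1 (H2 f q x hx u hu w hw)
  constructor
  · rw [TT_eq, TT_eq, Matrix.vecMul_vecMul, Matrix.star_vecMul, Matrix.dotProduct_mulVec,
      Matrix.vecMul_vecMul]
    congr 3
    rw [← Matrix.mul_assoc, h1, Matrix.mul_assoc, hPh' x hx, ← Matrix.mul_assoc]
  · have h3 : a ᵥ* (P x * Dm C x u w) = u ᵥ* Dm C x (a ᵥ* P x) w := by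
      have e0 : a ᵥ* P x = ∑ f, a f • P x f := by
        funext q
        rw [Finset.sum_apply]
        rfl
      rw [e0, Dm_sum_left]
      funext q
      have e1 : (u ᵥ* ∑ f, a f • Dm C x (P x f) w) q =
          ∑ f, a f * (u ᵥ* Dm C x (P x f) w) q := by
        simp only [Matrix.vecMul, dotProduct, Matrix.sum_apply, Matrix.smul_apply, smul_eq_mul,
          Finset.mul_sum]
        rw [Finset.sum_comm]
        refine Finset.sum_congr rfl fun f _ => Finset.sum_congr rfl fun i _ => ?_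
        ring
      rw [e1]
      have e2 : (a ᵥ* (P x * Dm C x u w)) q = ∑ f, a f * (P x f ᵥ* Dm C x u w) q := rfl
      rw [e2]
      refine Finset.sum_congr rfl fun f _ => ?_
      rw [h2 f]
    rw [TT_eq, TT_eq, Matrix.vecMul_vecMul, ← Matrix.mul_assoc, ← Matrix.vecMul_vecMul,
      h3, Matrix.vecMul_vecMul]

end Pool.Agent.Helper93.FM.FCO
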